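import Pool.Agent.W510.CG.Stm

/-!
# Quadruples in standard position
-/

set_option autoImplicit false

namespace Pool.Agent.W253.CGZ

open Pool.Agent.W510.CG

theorem main (h : S_STD4) : S_ZSTD := by
  intro L _ _ _ H hH a b c d hd hY
  obtain ⟨g, hg, ha, hb, hc, hdd⟩ := h L a b c d hd hY
  have h1 : g '' ({a, b, c, d} : Set (Pt L)) = std (Y a b c d) := by
    unfold std
    rw [Set.image_insert_eq, Set.image_insert_eq, Set.image_insert_eq, Set.image_singleton, ha, hb,
      hc, hdd]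
  rw [← h1]
  exact (Z_image_iff (hH hg)).symm

/-- removing a point -/
theorem diff5 {M : Type} {a b c d e : M} (hab : a ≠ b) (hac : a ≠ c) (had : a ≠ d) (hae : a ≠ e) :
    ({a, b, c, d, e} : Set M) \ {a} = {b, c, d, e} := by
  rw [Set.insert_sdiff_of_mem _ (Set.mem_singleton a)]
  refine Set.sdiff_singleton_eq_self ?_
  simp [hab, hac, had, hae]

section
variable {L : Type} [AddCommGroup L] [LinearOrder L] [IsOrderedAddMonoid L]

theorem w_o (s : L) : w (o : Pt L) (δ s) = s := by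
  unfold o δ
  rw [w_some, zero_sub, v_neg, v_single s 1 one_ne_zero]

theorem w_δ {s t : L} (h : s < t) : w (δ s : Pt L) (δ t) = t := by
  unfold δ
  rw [w_some]
  refine v_eq ?_ ?_
  · simp [h.ne]
  · intro μ hμ
    simp [(h.trans hμ).ne, hμ.ne]

theorem o_ne (s : L) : (o : Pt L) ≠ δ s := by
  unfold o δ
  intro h
  have h1 := Option.some.inj h
  have h2 := congrFun (congrArg (fun f : L →₀ ℤ => (f : L → ℤ)) h1) s
  simp at h2

theorem δ_ne {s t : L} (h : s ≠ t) : (δ s : Pt L) ≠ δ t := by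
  unfold δ
  intro h0
  have h1 := Option.some.inj h0
  have h2 := congrFun (congrArg (fun f : L →₀ ℤ => (f : L → ℤ)) h1) s
  simp [h] at h2

theorem δ_ne_none (s : L) : (δ s : Pt L) ≠ none := Option.some_ne_none _

theorem o_ne_none : (o : Pt L) ≠ none := Option.some_ne_none _

end

theorem main1 (h1 : S_ZSTD) (h2 : S_R1) (h3 : S_R2) (h4 : S_TREE) : S_ADD := by
  intro L _ _ _ H hH l m hl hm
  have hlm : l < l + m := lt_add_of_pos_right l hm
  have hlm0 : 0 < l + m := add_pos hl hm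
  -- distinctness
  have e1 : (o : Pt L) ≠ δ 0 := o_ne 0
  have e2 : (o : Pt L) ≠ δ l := o_ne l
  have e3 : (o : Pt L) ≠ none := o_ne_none
  have e4 : (o : Pt L) ≠ δ (l + m) := o_ne _
  have e5 : (δ 0 : Pt L) ≠ δ l := δ_ne hl.ne
  have e6 : (δ 0 : Pt L) ≠ none := δ_ne_none _
  have e7 : (δ 0 : Pt L) ≠ δ (l + m) := δ_ne hlm0.ne
  have e8 : (δ l : Pt L) ≠ none := δ_ne_none _
  have e9 : (δ l : Pt L) ≠ δ (l + m) := δ_ne hlm.ne
  have e10 : (none : Pt L) ≠ δ (l + m) := (δ_ne_none _).symm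
  set X : Set (Pt L) := {o, δ 0, δ l, none, δ (l + m)} with hX
  have perm1 : X = {δ 0, o, δ l, none, δ (l + m)} := Set.insert_comm _ _ _
  have perm2 : X = {δ l, o, δ 0, none, δ (l + m)} := by
    rw [hX]; ext x; simp only [Set.mem_insert_iff, Set.mem_singleton_iff]; tauto
  have perm3 : X = {none, o, δ 0, δ l, δ (l + m)} := by
    rw [hX]; ext x; simp only [Set.mem_insert_iff, Set.mem_singleton_iff]; tauto
  have perm4 : X = {δ (l + m), o, δ 0, none, δ l} := by
    rw [hX]; ext x; simp only [Set.mem_insert_iff, Set.mem_singleton_iff]; tauto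
  -- the five sets
  have z0 : Z br H (X \ {o}) ↔ Z br H (std m) := by
    have hs : X \ {o} = {δ 0, δ l, none, δ (l + m)} := diff5 e1 e2 e3 e4
    have hY : Y (δ 0 : Pt L) (δ l) none (δ (l + m)) = m := by
      unfold Y
      rw [w_δ hlm0, w_none_right, w_none_left, w_δ hl]
      abel
    have := h1 L H hH (δ 0) (δ l) none (δ (l + m)) ⟨e5, e6, e7, e8, e9, e10⟩ (by rw [hY]; exact hm)
    rwa [hY, ← hs] at this
  have z1 : Z br H (X \ {δ 0}) ↔ Z br H (std m) := by
    have hs : X \ {δ 0} = {o, δ l, none, δ (l + m)} := by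
      rw [perm1]; exact diff5 e1.symm e5 e6 e7
    have hY : Y (o : Pt L) (δ l) none (δ (l + m)) = m := by
      unfold Y
      rw [w_o, w_none_right, w_none_left, w_o]
      abel
    have := h1 L H hH o (δ l) none (δ (l + m)) ⟨e2, e3, e4, e8, e9, e10⟩ (by rw [hY]; exact hm)
    rwa [hY, ← hs] at this
  have z2 : Z br H (X \ {δ l}) ↔ Z br H (std (l + m)) := by
    have hs : X \ {δ l} = std (l + m) := by
      rw [perm2]; exact diff5 e2.symm e5.symm e8 e9
    rw [hs]
  have z3 : Z br H (X \ {none}) ↔ Z br H (std l) := by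
    have hs : X \ {none} = {o, δ 0, δ l, δ (l + m)} := by
      rw [perm3]; exact diff5 e3.symm e6.symm e8.symm e10
    have hY : Y (o : Pt L) (δ 0) (δ l) (δ (l + m)) = l := by
      unfold Y
      rw [w_o, w_δ hl, w_o, w_δ hlm]
      abel
    have := h1 L H hH o (δ 0) (δ l) (δ (l + m)) ⟨e1, e2, e4, e5, e7, e9⟩ (by rw [hY]; exact hl)
    rwa [hY, ← hs] at this
  have z4 : Z br H (X \ {δ (l + m)}) ↔ Z br H (std l) := by
    have hs : X \ {δ (l + m)} = std l := by
      rw [perm4]; exact diff5 e4.symm e7.symm e10.symm e9.symm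
    rw [hs]
  have hfin : X.Finite := by
    rw [hX]
    exact Set.toFinite _
  have m0 : o ∈ X := by simp [hX]
  have m1 : δ 0 ∈ X := by simp [hX]
  have m2 : δ l ∈ X := by simp [hX]
  have m3 : none ∈ X := by simp [hX]
  have m4 : δ (l + m) ∈ X := by simp [hX]
  constructor
  · intro hz
    have hz2 := z2.2 hz
    obtain ⟨y', hy', hne, hy2⟩ := h3 (Pt L) _ _ br H X (δ l) o m2 m0 e2.symm hz2
    have hcase : Z br H (std l) ∨ Z br H (std m) := by
      rw [hX] at hy'
      simp only [Set.mem_insert_iff, Set.mem_singleton_iff] at hy'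
      rcases hy' with rfl | rfl | rfl | rfl | rfl
      · exact Or.inr (z0.1 hy2)
      · exact Or.inr (z1.1 hy2)
      · exact absurd rfl hne
      · exact Or.inl (z3.1 hy2)
      · exact Or.inl (z4.1 hy2)
    rcases hcase with hc | hc
    · have hall := h2 (Pt L) _ _ br (Iso L) H (h4 L) hH X (δ l) none (δ (l + m)) hfin m2 m3 m4
        e8 e9 e10 hz2 (z3.2 hc) (z4.2 hc)
      exact ⟨hc, z0.1 (hall o m0)⟩
    · have hall := h2 (Pt L) _ _ br (Iso L) H (h4 L) hH X (δ l) o (δ 0) hfin m2 m0 m1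
        e2.symm e5.symm e1 hz2 (z0.2 hc) (z1.2 hc)
      exact ⟨z3.1 (hall none m3), hc⟩
  · rintro ⟨ha, hb⟩
    have hall := h2 (Pt L) _ _ br (Iso L) H (h4 L) hH X none (δ (l + m)) o hfin m3 m4 m0
      e10 e3.symm e4.symm (z3.2 ha) (z4.2 ha) (z0.2 hb)
    exact z2.1 (hall (δ l) m2)

end Pool.Agent.W253.CGZ
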