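import Pool.Agent.W217.BE.Stm3

/-!
Project BE, part BASE34: from local rings to localisations at minimal primes.
-/

set_option autoImplicit false

namespace Pool.Agent.W253.BEBASE34

open Pool.Agent.W217.BE

theorem nontriv {A : Type} [CommRing A] (p : Ideal A) [p.IsPrime] (N : Type)
    [AddCommGroup N] [Module A N] [Module.Finite A N] (h : Module.annihilator A N ≤ p) :
    Nontrivial (LocalizedModule p.primeCompl N) := by
  have : (⟨p, inferInstance⟩ : PrimeSpectrum A) ∈ Module.support A N := by
    rw [Module.support_eq_zeroLocus]
    exact h
  exact this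

theorem comap_le {A : Type} [CommRing A] (p : Ideal A) [p.IsPrime] (N : Type)
    [AddCommGroup N] [Module A N] (q' : Ideal (Localization.AtPrime p))
    (hann : Module.annihilator (Localization.AtPrime p) (LocalizedModule p.primeCompl N) ≤ q') :
    Module.annihilator A N ≤ q'.under A := by
  intro a ha
  show algebraMap A (Localization.AtPrime p) a ∈ q'
  apply hann
  rw [Module.mem_annihilator] at ha ⊢
  intro m
  induction m using LocalizedModule.induction_on with
  | h m s =>
    rw [algebraMap_smul, LocalizedModule.smul'_mk, ha, LocalizedModule.zero_mk]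

theorem prime_eq {A : Type} [CommRing A] (p : Ideal A) [p.IsPrime] (N : Type)
    [AddCommGroup N] [Module A N] (hp : p ∈ (Module.annihilator A N).minimalPrimes)
    (q' : Ideal (Localization.AtPrime p)) [q'.IsPrime]
    (hann : Module.annihilator (Localization.AtPrime p) (LocalizedModule p.primeCompl N) ≤ q') :
    q' = IsLocalRing.maximalIdeal (Localization.AtPrime p) := by
  have h1 := comap_le p N q' hann
  have h2 : q'.under A ≤ p := by
    have h3 : q' ≤ IsLocalRing.maximalIdeal (Localization.AtPrime p) :=
      IsLocalRing.le_maximalIdeal (Ideal.IsPrime.ne_top inferInstance)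
    have h4 : q'.under A ≤ (IsLocalRing.maximalIdeal (Localization.AtPrime p)).under A :=
      Ideal.comap_mono (f := algebraMap A (Localization.AtPrime p)) h3
    rwa [Localization.AtPrime.under_maximalIdeal] at h4
  have h5 : p ≤ q'.under A :=
    hp.2 ⟨Ideal.IsPrime.comap _, h1⟩ h2
  have h6 : q'.under A = p := le_antisymm h2 h5
  have h7 := IsLocalization.map_under p.primeCompl (Localization.AtPrime p) q'
  rw [← h7, h6]
  exact Localization.AtPrime.map_eq_maximalIdeal

theorem ht {A : Type} [CommRing A] (p : Ideal A) [p.IsPrime] :
    (IsLocalRing.maximalIdeal (Localization.AtPrime p)).height = p.height := by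
  have h1 := IsLocalization.height_under p.primeCompl
    (IsLocalRing.maximalIdeal (Localization.AtPrime p))
  rw [← h1]
  congr 1
  exact Localization.AtPrime.under_maximalIdeal

theorem main : LOC34 → DESC → BASE34 := by
  intro hloc hdesc A _ _ p _ hreg N _ _ _ hp
  haveI := hreg
  haveI : Module.Finite (Localization.AtPrime p) (LocalizedModule p.primeCompl N) :=
    Module.Finite.of_isLocalizedModule p.primeCompl (LocalizedModule.mkLinearMap p.primeCompl N)
  haveI : Nontrivial (LocalizedModule p.primeCompl N) := nontriv p N hp.1.2
  have h := hloc (Localization.AtPrime p) (LocalizedModule p.primeCompl N) (by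
    intro q' hq' hann
    haveI := hq'
    exact prime_eq p N hp q' hann)
  rw [ht] at h
  exact ⟨fun h3 => hdesc A p N _ (h.1 h3), fun h4 => hdesc A p N _ (h.2 h4)⟩

end Pool.Agent.W253.BEBASE34
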