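import Pool.Agent.W894.HT.Lib

/-!
# From Hamiltonian paths to Hamiltonian cycles of tournaments
-/

set_option autoImplicit false

namespace Pool.Agent.W253.HTZred

open Pool.Agent.W894.HT Pool.Agent.NPC Pool.Agent.NPC.Cnt
open Pool.Agent.NPC.H549NRed (NRed)

theorem numHP_nil : numHP [] = 1 := by
  unfold numHP
  rw [Nat.card_eq_one_iff_unique]
  constructor
  · constructor
    rintro ⟨l, hl, _⟩ ⟨l', hl', _⟩
    apply Subtype.ext
    simp only [List.length_nil, List.range_zero, List.perm_nil] at hl hl'
    exact hl.trans hl'.symm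
  · exact ⟨⟨[], by simp, List.isChain_nil⟩⟩

theorem main (h1 : S_ADDZW) (h2 : S_PADD) : S_ZRED := by
  refine ⟨fun A => if A.length = 0 then [] else [addZW A],
    fun p => if p.1.length = 0 then 1 else p.2.getD 0 0, ?_, ?_, ?_⟩
  · exact NPC.Poly.ite (NPC.Poly.decide_eq (NPC.Poly.length NPC.Poly.id) (NPC.Poly.const 0)) (NPC.Poly.const [])
      (NPC.Poly.cons h2.2 (NPC.Poly.const []))
  · exact NPC.Poly.ite (NPC.Poly.decide_eq (NPC.Poly.length (NPC.Poly.fst NPC.Poly.id)) (NPC.Poly.const 0)) (NPC.Poly.const 1)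
      (NPC.Poly.getD (NPC.Poly.snd NPC.Poly.id) (NPC.Poly.const 0) (NPC.Poly.const 0))
  · intro A hA
    by_cases h0 : A.length = 0
    · have hnil : A = [] := List.length_eq_zero_iff.1 h0
      subst hnil
      refine ⟨fun b hb => ?_, ?_⟩
      · simp at hb
      · simp only [List.length_nil, if_true]
        exact numHP_nil.symm
    · obtain ⟨h3, h4⟩ := h1 A hA (Nat.one_le_iff_ne_zero.2 h0)
      refine ⟨fun b hb => ?_, ?_⟩
      · have hb' : b ∈ (if A.length = 0 then [] else [addZW A]) := hb
        rw [if_neg h0, List.mem_singleton] at hb'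
        rw [hb']
        exact h3
      · show (if A.length = 0 then 1 else
          ((if A.length = 0 then [] else [addZW A]).map numHC).getD 0 0) = numHP A
        rw [if_neg h0, if_neg h0, ← h4]
        rfl

end Pool.Agent.W253.HTZred
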