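import Mathlib
import Pool.Agent.W875.NK.Spec

/-! Project NK, part A (helper253): points of the cubic over extensions of `𝔽₃(t)` of degree prime
to `3`. -/

set_option autoImplicit false
set_option linter.style.haveILetI false

namespace Pool.Agent.W253.NKA

open Polynomial IsDedekindDomain WithZero

/-- an extension of degree prime to `3` is separable -/
theorem sep (L : Type) [Field L] [Algebra (RatFunc (ZMod 3)) L]
    [FiniteDimensional (RatFunc (ZMod 3)) L] (h : ¬ 3 ∣ Module.finrank (RatFunc (ZMod 3)) L) :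
    Algebra.IsSeparable (RatFunc (ZMod 3)) L := by
  haveI : CharP (RatFunc (ZMod 3)) 3 :=
    charP_of_injective_algebraMap (algebraMap (ZMod 3) (RatFunc (ZMod 3))).injective 3
  refine ⟨fun x => ?_⟩
  have hint : IsIntegral (RatFunc (ZMod 3)) x := Algebra.IsIntegral.isIntegral x
  have hirr := minpoly.irreducible hint
  rcases separable_or 3 hirr with h1 | ⟨_, g, _, hg⟩
  · exact h1
  · exfalso
    apply h
    have h2 : (minpoly (RatFunc (ZMod 3)) x).natDegree = g.natDegree * 3 := by
      rw [← hg, natDegree_expand]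
    have h3 : (minpoly (RatFunc (ZMod 3)) x).natDegree ∣
        Module.finrank (RatFunc (ZMod 3)) L := minpoly.degree_dvd hint
    rw [h2] at h3
    exact dvd_trans (dvd_mul_left _ _) h3

/-- there is a valuation above the `X`-adic one with ramification index prime to `3` -/
theorem exists_val (L : Type) [Field L] [Algebra (RatFunc (ZMod 3)) L]
    [FiniteDimensional (RatFunc (ZMod 3)) L] (h : ¬ 3 ∣ Module.finrank (RatFunc (ZMod 3)) L) :
    ∃ v : Valuation L (WithZero (Multiplicative ℤ)),
      v (algebraMap (RatFunc (ZMod 3)) L RatFunc.X) ≠ 0 ∧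
      ¬ (3 : ℤ) ∣ WithZero.log (v (algebraMap (RatFunc (ZMod 3)) L RatFunc.X)) := by
  letI : Algebra (ZMod 3)[X] L := ((algebraMap (RatFunc (ZMod 3)) L).comp
    (algebraMap (ZMod 3)[X] (RatFunc (ZMod 3)))).toAlgebra
  haveI : IsScalarTower (ZMod 3)[X] (RatFunc (ZMod 3)) L :=
    IsScalarTower.of_algebraMap_eq (fun _ => rfl)
  haveI := sep L h
  let S := integralClosure (ZMod 3)[X] L
  haveI : IsDedekindDomain S := IsIntegralClosure.isDedekindDomain (ZMod 3)[X] (RatFunc (ZMod 3)) L S
  haveI : IsFractionRing S L :=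
    integralClosure.isFractionRing_of_finite_extension (RatFunc (ZMod 3)) L
  haveI : IsNoetherian (ZMod 3)[X] S :=
    IsIntegralClosure.isNoetherian (ZMod 3)[X] (RatFunc (ZMod 3)) L S
  haveI : Module.Finite (ZMod 3)[X] S := inferInstance
  have hinjL : Function.Injective (algebraMap (ZMod 3)[X] L) := by
    rw [IsScalarTower.algebraMap_eq (ZMod 3)[X] (RatFunc (ZMod 3)) L]
    exact (algebraMap (RatFunc (ZMod 3)) L).injective.comp (IsFractionRing.injective _ _)
  haveI : FaithfulSMul (ZMod 3)[X] S := by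
    rw [faithfulSMul_iff_algebraMap_injective]
    intro a b hab
    apply hinjL
    exact congrArg Subtype.val hab
  haveI : Module.IsTorsionFree (ZMod 3)[X] S := inferInstance
  haveI : Module.Flat (ZMod 3)[X] S := inferInstance
  let v0 := Polynomial.idealX (ZMod 3)
  haveI : Fintype (v0.asIdeal.primesOver S) :=
    (Algebra.QuasiFinite.finite_primesOver (S := S) v0.asIdeal).fintype
  have hsum := Ideal.sum_ramification_inertia_eq_finrank v0.asIdeal S
  have hfin : Module.finrank (RatFunc (ZMod 3)) L = Module.finrank (ZMod 3)[X] S :=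
    (IsFractionRing.finrank_eq (ZMod 3)[X] (RatFunc (ZMod 3)) S L)
  obtain ⟨q, hq⟩ : ∃ q : v0.asIdeal.primesOver S, ¬ 3 ∣ q.1.ramificationIdx (ZMod 3)[X] := by
    by_contra hcon
    push Not at hcon
    apply h
    rw [hfin, ← hsum]
    exact Finset.dvd_sum (fun q _ => Dvd.dvd.mul_right (hcon q) _)
  haveI hqp : q.1.IsPrime := q.2.1
  haveI hql : q.1.LiesOver v0.asIdeal := q.2.2
  have hqb : q.1 ≠ ⊥ :=
    Ideal.ne_bot_of_liesOver_of_ne_bot (A := (ZMod 3)[X]) (p := v0.asIdeal) v0.ne_bot q.1
  let w : HeightOneSpectrum S := ⟨q.1, hqp, hqb⟩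
  haveI : w.asIdeal.LiesOver v0.asIdeal := hql
  have hval := HeightOneSpectrum.valuation_liesOver (K := RatFunc (ZMod 3)) L v0 w
    (RatFunc.X : RatFunc (ZMod 3))
  rw [Ideal.ramificationIdx'_eq_ramificationIdx v0.asIdeal w.asIdeal v0.ne_bot,
    Polynomial.valuation_X_eq_neg_one] at hval
  refine ⟨w.valuation L, ?_, ?_⟩
  · rw [← hval]
    exact pow_ne_zero _ exp_ne_zero
  · rw [← hval, log_pow, log_exp]
    intro h3
    apply hq
    have h4 : (3 : ℤ) ∣ ((q.1.ramificationIdx (ZMod 3)[X] : ℕ) : ℤ) := by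
      have : (w.asIdeal.ramificationIdx (ZMod 3)[X]) • (-1 : ℤ) =
          - ((q.1.ramificationIdx (ZMod 3)[X] : ℕ) : ℤ) := by simp [w]
      rw [this] at h3
      exact (dvd_neg).1 h3
    exact_mod_cast h4

section four

variable {L : Type} [Field L]

theorem core (v : Valuation L (WithZero (Multiplicative ℤ))) {A B C D : L}
    (hsum : A + B + C + D = 0) (hprod : v D ^ 3 = v A * v B * v C) (h1 : v B < v A)
    (h2 : v C < v A) : False := by
  have hA : v A ≠ 0 := fun h => by rw [h] at h1; exact not_lt_zero h1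
  have hA' : 0 < v A := zero_lt_iff.2 hA
  have hD : v D < v A := by
    by_contra hcon
    push Not at hcon
    have h3 : v A ^ 3 ≤ v D ^ 3 := pow_le_pow_left' hcon 3
    rw [hprod] at h3
    have h4 : v A * v B < v A * v A := by
      exact (mul_lt_mul_iff_right₀ hA').2 h1
    have h5 : v A * v B * v C < v A ^ 3 := by
      calc v A * v B * v C ≤ v A * v B * v A := mul_le_mul_right h2.le _
        _ < v A * v A * v A := (mul_lt_mul_iff_left₀ hA').2 h4
        _ = v A ^ 3 := (pow_three' _).symm
    exact absurd h3 (not_le.2 h5)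
  have h6 : v (B + C + D) < v A := Valuation.map_add_lt v (Valuation.map_add_lt v h1 h2) hD
  have h7 : B + C + D = -A := by linear_combination hsum
  rw [h7, Valuation.map_neg] at h6
  exact lt_irrefl _ h6

theorem four (v : Valuation L (WithZero (Multiplicative ℤ))) {A B C D : L}
    (hsum : A + B + C + D = 0) (hprod : v D ^ 3 = v A * v B * v C)
    (hAB : v A = v B → v A = 0) (hAC : v A = v C → v A = 0) (hBC : v B = v C → v B = 0) :
    v A = 0 ∧ v B = 0 ∧ v C = 0 := by
  rcases lt_trichotomy (v A) (v B) with h1 | h1 | h1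
  · rcases lt_trichotomy (v B) (v C) with h2 | h2 | h2
    · exact (core v (A := C) (B := A) (C := B) (D := D) (by linear_combination hsum)
        (by rw [hprod]; ac_rfl) (h1.trans h2) h2).elim
    · have := hBC h2
      rw [this] at h1
      exact (not_lt_zero h1).elim
    · exact (core v (A := B) (B := A) (C := C) (D := D) (by linear_combination hsum)
        (by rw [hprod]; ac_rfl) h1 h2).elim
  · have h3 := hAB h1
    rcases lt_trichotomy (v B) (v C) with h2 | h2 | h2
    · exact (core v (A := C) (B := A) (C := B) (D := D) (by linear_combination hsum)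
        (by rw [hprod]; ac_rfl) (h1 ▸ h2) h2).elim
    · exact ⟨h3, h1 ▸ h3, h2 ▸ h1 ▸ h3⟩
    · rw [← h1, h3] at h2
      exact (not_lt_zero h2).elim
  · rcases lt_trichotomy (v A) (v C) with h2 | h2 | h2
    · exact (core v (A := C) (B := A) (C := B) (D := D) (by linear_combination hsum)
        (by rw [hprod]; ac_rfl) h2 (h1.trans h2)).elim
    · have := hAC h2
      rw [this] at h1
      exact (not_lt_zero h1).elim
    · exact (core v hsum hprod h1 h2).elim

end four

theorem partA : W875.NK.PartA := by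
  intro L _ _ _ x y z hsum hne
  by_contra h
  obtain ⟨v, hv0, hv3⟩ := exists_val L h
  set t := algebraMap (RatFunc (ZMod 3)) L RatFunc.X with ht
  have hA : v (x ^ 3) = v x ^ 3 := map_pow _ _ _
  have hB : v (t * y ^ 3) = v t * v y ^ 3 := by rw [map_mul, map_pow]
  have hC : v (t ^ 2 * z ^ 3) = v t ^ 2 * v z ^ 3 := by rw [map_mul, map_pow, map_pow]
  have hD : v (t * (x * y * z)) ^ 3 = v (x ^ 3) * v (t * y ^ 3) * v (t ^ 2 * z ^ 3) := by
    rw [← map_pow, ← map_mul, ← map_mul]
    congr 1
    ring
  have h4 := four v hsum hD ?_ ?_ ?_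
  · obtain ⟨h5, h6, h7⟩ := h4
    apply hne
    have ht0 : t ≠ 0 := fun h0 => hv0 (by rw [h0, map_zero])
    refine ⟨?_, ?_, ?_⟩
    · exact pow_eq_zero_iff (n := 3) (by norm_num) |>.1 ((Valuation.zero_iff v).1 h5)
    · have := (Valuation.zero_iff v).1 h6
      rcases mul_eq_zero.1 this with h8 | h8
      · exact (ht0 h8).elim
      · exact pow_eq_zero_iff (n := 3) (by norm_num) |>.1 h8
    · have := (Valuation.zero_iff v).1 h7
      rcases mul_eq_zero.1 this with h8 | h8
      · exact (ht0 (pow_eq_zero_iff (n := 2) (by norm_num) |>.1 h8)).elim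
      · exact pow_eq_zero_iff (n := 3) (by norm_num) |>.1 h8
  · intro h8
    by_contra h9
    rw [hA, hB] at h8
    rw [hA] at h9
    have hx0 : v x ≠ 0 := fun h0 => h9 (by rw [h0]; simp)
    have hy0 : v y ≠ 0 := fun h0 => h9 (by rw [h8, h0]; simp)
    have h10 := congrArg WithZero.log h8
    rw [log_mul hv0 (pow_ne_zero _ hy0), log_pow, log_pow] at h10
    simp only [nsmul_eq_mul, Nat.cast_ofNat] at h10
    apply hv3
    exact ⟨WithZero.log (v x) - WithZero.log (v y), by linarith⟩
  · intro h8
    by_contra h9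
    rw [hA, hC] at h8
    rw [hA] at h9
    have hx0 : v x ≠ 0 := fun h0 => h9 (by rw [h0]; simp)
    have hz0 : v z ≠ 0 := fun h0 => h9 (by rw [h8, h0]; simp)
    have h10 := congrArg WithZero.log h8
    rw [log_mul (pow_ne_zero _ hv0) (pow_ne_zero _ hz0), log_pow, log_pow, log_pow] at h10
    simp only [nsmul_eq_mul, Nat.cast_ofNat] at h10
    apply hv3
    have h11 : WithZero.log (v t) = 3 * (WithZero.log (v t) - WithZero.log (v x) +
      WithZero.log (v z)) := by linarith
    exact ⟨_, h11⟩
  · intro h8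
    by_contra h9
    rw [hB, hC] at h8
    rw [hB] at h9
    have hy0 : v y ≠ 0 := fun h0 => h9 (by rw [h0]; simp)
    have hz0 : v z ≠ 0 := fun h0 => h9 (by rw [h8, h0]; simp)
    have h10 := congrArg WithZero.log h8
    rw [log_mul hv0 (pow_ne_zero _ hy0), log_mul (pow_ne_zero _ hv0) (pow_ne_zero _ hz0),
      log_pow, log_pow, log_pow] at h10
    simp only [nsmul_eq_mul, Nat.cast_ofNat] at h10
    apply hv3
    exact ⟨WithZero.log (v y) - WithZero.log (v z), by linarith⟩

end Pool.Agent.W253.NKA
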